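import Pool.Agent.Helper17.CT.Piece

set_option autoImplicit false

/-!
FS-7: soundness of the recursion over all non-crossing states.
-/

namespace Pool.Agent.Helper17.CT

private lemma rg_fold_zero (wd t : ℕ) : fold wd t 0 = 0 := by
  induction t with
  | zero => exact Nat.zero_mod _
  | succ t ih =>
    have h : fold wd (t + 1) 0 =
        fold wd t (0 ^^^ (0 >>> (wd * (1 <<< t)))) := rfl
    rw [h, Nat.zero_shiftRight, Nat.xor_self]
    exact ih

private lemma rg_zero_u {T : TT} (h : T.zero = true) : T.u.zero = true ∧ T.o.zero = true ∧
    T.s.zero = true ∧ T.d.zero = true := by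
  cases T with
  | nil => exact ⟨rfl, rfl, rfl, rfl⟩
  | leaf w => exact ⟨rfl, rfl, rfl, rfl⟩
  | node u o s d =>
    have h1 : (u.zero && (o.zero && (s.zero && d.zero))) = true := h
    simp only [Bool.and_eq_true] at h1
    exact ⟨h1.1, h1.2.1, h1.2.2.1, h1.2.2.2⟩

private lemma rg_look_zero (b : ℕ → ℕ) (e : ℕ → Bool) (w : ℕ) : ∀ (f p : ℕ) (T : TT),
    T.zero = true → look b e f p T = some w → w = 0 := by
  intro f
  induction f with
  | zero =>
    intro p T h h1
    cases T with
    | nil => simp [look] at h1
    | leaf w' =>
      have h2 : w' = w := by simpa [look] using h1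
      have h3 : Nat.beq w' 0 = true := h
      rw [Nat.beq_eq] at h3
      omega
    | node u o s d => simp [look] at h1
  | succ f ih =>
    intro p T h h1
    obtain ⟨h2, h3, h4, h5⟩ := rg_zero_u h
    rw [look] at h1
    split_ifs at h1
    · exact ih _ _ h2 h1
    · exact ih _ _ h3 h1
    · exact ih _ _ h4 h1
    · exact ih _ _ h5 h1

/-- bits of a shifted digit -/
private lemma rg_digit (x q i : ℕ) (hx : x < 16) :
    (x <<< (4 * q)).testBit i = (decide (i / 4 = q) && x.testBit (i % 4)) := by
  rw [Nat.testBit_shiftLeft]
  by_cases h : i / 4 = q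
  · have h1 : 4 * q ≤ i := by omega
    have h2 : i - 4 * q = i % 4 := by omega
    simp [h, h1, h2]
  · by_cases h1 : 4 * q ≤ i
    · have h2 : 4 ≤ i - 4 * q := by omega
      have h3 : x.testBit (i - 4 * q) = false := by
        apply Nat.testBit_eq_false_of_lt
        calc x < 2 ^ 4 := hx
          _ ≤ 2 ^ (i - 4 * q) := Nat.pow_le_pow_right (by norm_num) h2
      simp [h, h3]
    · simp [h, h1]

private lemma rg_d4 (B q i : ℕ) (hi : i < 4) : (d4 B q).testBit i = B.testBit (4 * q + i) := by
  have h : d4 B q = (B >>> (4 * q)) % 2 ^ 4 := rfl
  rw [h, Nat.testBit_mod_two_pow, Nat.testBit_shiftRight]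
  simp [hi]

private lemma rg_d4_lt (B q : ℕ) : d4 B q < 16 := Nat.mod_lt _ (by norm_num)

private lemma rg_tb (U i : ℕ) : tb U i = U.testBit i := by
  have h : tb U i = Nat.beq ((U >>> i) % 2) 1 := rfl
  rw [h, Nat.testBit_eq_decide_div_mod_eq, Nat.shiftRight_eq_div_pow]
  by_cases h1 : U / 2 ^ i % 2 = 1
  · rw [h1]; rfl
  · have h2 : U / 2 ^ i % 2 = 0 := by omega
    rw [h2]; rfl

/-- the invariant of the recursion -/
private structure RgInv (b : ℕ → ℕ) (ε : ℕ → Bool) (us xs : ℕ → ℕ) (N p : ℕ) (st : List ℕ)
    (U B L : ℕ) : Prop where
  pw : st.Pairwise (· > ·)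
  mem : ∀ q, q ∈ st ↔ q < p ∧ p ≤ b q
  hU : ∀ i, U.testBit i = true ↔ i < p ∧ b i ≠ i
  hB : ∀ i, B.testBit i = true ↔ i / 4 < p ∧ b (i / 4) < p ∧ (b (i / 4)).testBit (i % 4) = true
  hL : ∀ i, L.testBit i = true ↔ i < N ∧ (∀ q < p, (us q).testBit i = true ↔ b q ≠ q) ∧
    (∀ q < p, b q < p → b q ≠ q → ((xs q).testBit i = (xs (b q)).testBit i ↔ ε q = true))

private lemma rg_step (F : Code) (S : Tri') (Us Xs : List ℕ) (W wd t f p : ℕ) (st : List ℕ)
    (Up Bp Lp : ℕ) (T : TT) : ∃ Z, GG F S Us Xs W wd t (f + 1) p st Up Bp Lp T =
      cond (Nat.beq Lp 0) T.zero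
        (GG F S Us Xs W wd t f (p + 1) st Up (Bp ||| (p <<< (4 * p)))
          (Lp ^^^ (Lp &&& getN Us p)) T.u && (GG F S Us Xs W wd t f (p + 1) (p :: st)
            (Up ||| (1 <<< p)) Bp (Lp &&& getN Us p) T.o && Z)) := ⟨_, rfl⟩

private lemma rg_main (F : Code) (S : Tri') (Us Xs : List ℕ) (W wd t N : ℕ) (b : ℕ → ℕ)
    (ε : ℕ → Bool) (hbi : ∀ q < F.k, b (b q) = q) (hbk : ∀ q < F.k, b q < F.k)
    (hb16 : ∀ q < F.k, b q < 16)
    (hnc : ∀ i j l m, m < F.k → i < j → j < l → l < m → b i = l → b j = m → False)
    (hε : ∀ q < F.k, ε (b q) = ε q) (U B : ℕ)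
    (hU : ∀ i, U.testBit i = true ↔ i < F.k ∧ b i ≠ i)
    (hB : ∀ i, B.testBit i = true ↔ i / 4 < F.k ∧ (b (i / 4)).testBit (i % 4) = true) :
    ∀ (f p : ℕ) (st : List ℕ) (Up Bp Lp : ℕ) (T : TT), p + f = F.k →
      GG F S Us Xs W wd t f p st Up Bp Lp T = true →
      RgInv b ε (getN Us) (getN Xs) N p st Up Bp Lp →
      ∃ L, (∀ i, L.testBit i = true ↔ i < N ∧
          (∀ q < F.k, (getN Us q).testBit i = true ↔ b q ≠ q) ∧
          (∀ q < F.k, b q ≠ q →
            ((getN Xs q).testBit i = (getN Xs (b q)).testBit i ↔ ε q = true))) ∧
        (∀ w, look b ε f p T = some w → fold wd t (L &&& W) = w) ∧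
        (fold wd t (L &&& W) = 0 ∨ blk F S U B = true) := by
  intro f
  induction f with
  | zero =>
    intro p st Up Bp Lp T hp h hI
    have hpk : p = F.k := by omega
    subst hpk
    by_cases hL : Lp = 0
    · subst hL
      have hz : T.zero = true := h
      refine ⟨0, ?_, ?_, ?_⟩
      · intro i
        constructor
        · intro h1; simp at h1
        · rintro ⟨h1, h2, h3⟩
          exact (hI.hL i).2 ⟨h1, h2, fun q hq _ hne => h3 q hq hne⟩
      · intro w hw
        rw [Nat.zero_and, rg_fold_zero]
        exact (rg_look_zero b ε w _ _ _ hz hw).symm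
      · left
        rw [Nat.zero_and, rg_fold_zero]
    · have hb0 : Nat.beq Lp 0 = false := by
        rw [← Bool.not_eq_true, Nat.beq_eq]; exact hL
      have hst : st = [] := by
        rw [List.eq_nil_iff_forall_not_mem]
        intro q hq
        have h1 := (hI.mem q).1 hq
        have h2 := hbk q h1.1
        omega
      subst hst
      have h1 : GG F S Us Xs W wd t 0 F.k [] Up Bp Lp T = cond (Nat.beq Lp 0) T.zero
          (T.val (fold wd t (Lp &&& W)) &&
            ((Nat.beq (fold wd t (Lp &&& W)) 0) || (blk F S Up Bp))) := rfl
      rw [hb0, cond_false] at h1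
      rw [h1, Bool.and_eq_true, Bool.or_eq_true, Nat.beq_eq] at h
      have hUU : Up = U := by
        apply Nat.eq_of_testBit_eq
        intro i
        rw [Bool.eq_iff_iff, hI.hU, hU]
      have hBB : Bp = B := by
        apply Nat.eq_of_testBit_eq
        intro i
        rw [Bool.eq_iff_iff, hI.hB, hB]
        constructor
        · rintro ⟨h2, h3, h4⟩; exact ⟨h2, h4⟩
        · rintro ⟨h2, h3⟩; exact ⟨h2, hbk _ h2, h3⟩
      refine ⟨Lp, ?_, ?_, ?_⟩
      · intro i
        rw [hI.hL]
        constructor
        · rintro ⟨h2, h3, h4⟩
          exact ⟨h2, h3, fun q hq hne => h4 q hq (hbk q hq) hne⟩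
        · rintro ⟨h2, h3, h4⟩
          exact ⟨h2, h3, fun q hq _ hne => h4 q hq hne⟩
      · intro w hw
        cases T with
        | nil => simp [look] at hw
        | leaf w' =>
          have h2 : w' = w := by simpa [look] using hw
          have h3 : Nat.beq w' (fold wd t (Lp &&& W)) = true := h.1
          rw [Nat.beq_eq] at h3
          omega
        | node u o s d => simp [look] at hw
      · rw [← hUU, ← hBB]
        exact h.2
  | succ f ih =>
    intro p st Up Bp Lp T hp h hI
    by_cases hL : Lp = 0
    · subst hL
      have hz : T.zero = true := h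
      refine ⟨0, ?_, ?_, ?_⟩
      · intro i
        constructor
        · intro h1; simp at h1
        · rintro ⟨h1, h2, h3⟩
          exact (hI.hL i).2 ⟨h1, fun q hq => h2 q (by omega),
            fun q hq _ hne => h3 q (by omega) hne⟩
      · intro w hw
        rw [Nat.zero_and, rg_fold_zero]
        exact (rg_look_zero b ε w _ _ _ hz hw).symm
      · left
        rw [Nat.zero_and, rg_fold_zero]
    · have hb0 : Nat.beq Lp 0 = false := by
        rw [← Bool.not_eq_true, Nat.beq_eq]; exact hL
      have hpk : p < F.k := by omega
      -- bits of the item sets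
      have hL1 : ∀ i, (Lp &&& getN Us p).testBit i = (Lp.testBit i && (getN Us p).testBit i) :=
        fun i => Nat.testBit_and _ _ _
      have hL0 : ∀ i, (Lp ^^^ (Lp &&& getN Us p)).testBit i =
          (Lp.testBit i && !(getN Us p).testBit i) := by
        intro i
        rw [Nat.testBit_xor, Nat.testBit_and]
        cases Lp.testBit i <;> cases (getN Us p).testBit i <;> rfl
      by_cases hbp : b p = p
      · -- unused port
        obtain ⟨Z, h1⟩ := rg_step F S Us Xs W wd t f p st Up Bp Lp T
        rw [hb0, cond_false] at h1
        rw [h1, Bool.and_eq_true] at h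
        have h2 := h.1
        have hlook : look b ε (f + 1) p T = look b ε f (p + 1) T.u := by
          rw [look, if_pos hbp]
        rw [hlook]
        have hne : ∀ q < p, b q ≠ p := by
          intro q hq h3
          have h4 := hbi q (by omega)
          rw [h3, hbp] at h4
          omega
        refine ih (p + 1) st Up _ _ T.u (by omega) h2 ⟨hI.pw, ?_, ?_, ?_, ?_⟩
        · intro q
          rw [hI.mem]
          constructor
          · rintro ⟨h3, h4⟩
            have := hne q h3
            omega
          · rintro ⟨h3, h4⟩
            have : q ≠ p := by rintro rfl; omega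
            omega
        · intro i
          rw [hI.hU]
          constructor
          · rintro ⟨h3, h4⟩; exact ⟨by omega, h4⟩
          · rintro ⟨h3, h4⟩
            refine ⟨?_, h4⟩
            have : i ≠ p := by rintro rfl; exact h4 hbp
            omega
        · intro i
          rw [Nat.testBit_or, Bool.or_eq_true, hI.hB, rg_digit _ _ _ (by
            have := hb16 p hpk; omega), Bool.and_eq_true, decide_eq_true_eq]
          constructor
          · rintro (⟨h3, h4, h5⟩ | ⟨h3, h4⟩)
            · exact ⟨by omega, by omega, h5⟩
            · rw [h3, hbp]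
              exact ⟨by omega, by omega, h4⟩
          · rintro ⟨h3, h4, h5⟩
            by_cases h6 : i / 4 = p
            · right
              rw [h6, hbp] at h5
              exact ⟨h6, h5⟩
            · left
              have h7 : i / 4 < p := by omega
              have := hne _ h7
              exact ⟨h7, by omega, h5⟩
        · intro i
          rw [hL0, Bool.and_eq_true, hI.hL]
          constructor
          · rintro ⟨⟨h3, h4, h5⟩, h6⟩
            refine ⟨h3, ?_, ?_⟩
            · intro q hq
              by_cases hqp : q = p
              · subst hqp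
                simp only [Bool.not_eq_true', ] at h6
                rw [h6]
                simp [hbp]
              · exact h4 q (by omega)
            · intro q hq hbq hne'
              have hqp : q ≠ p := by rintro rfl; exact hne' hbp
              have := hne q (by omega)
              exact h5 q (by omega) (by omega) hne'
          · rintro ⟨h3, h4, h5⟩
            refine ⟨⟨h3, fun q hq => h4 q (by omega), fun q hq hbq hne' =>
              h5 q (by omega) (by omega) hne'⟩, ?_⟩
            have h6 := h4 p (by omega)
            rw [Bool.not_eq_true', ← Bool.not_eq_true, h6]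
            exact fun h7 => h7 hbp
      · by_cases hlt : p < b p
        · -- opening port
          obtain ⟨Z, h1⟩ := rg_step F S Us Xs W wd t f p st Up Bp Lp T
          rw [hb0, cond_false] at h1
          rw [h1, Bool.and_eq_true, Bool.and_eq_true] at h
          have h2 := h.2.1
          have hlook : look b ε (f + 1) p T = look b ε f (p + 1) T.o := by
            rw [look, if_neg hbp, if_pos hlt]
          rw [hlook]
          have hne : ∀ q < p, b q ≠ p := by
            intro q hq h3
            have h4 := hbi q (by omega)
            rw [h3] at h4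
            omega
          refine ih (p + 1) (p :: st) _ _ _ T.o (by omega) h2 ⟨?_, ?_, ?_, ?_, ?_⟩
          · rw [List.pairwise_cons]
            exact ⟨fun q hq => ((hI.mem q).1 hq).1, hI.pw⟩
          · intro q
            rw [List.mem_cons, hI.mem]
            constructor
            · rintro (h3 | ⟨h3, h4⟩)
              · subst h3; omega
              · have := hne q h3
                omega
            · rintro ⟨h3, h4⟩
              by_cases hqp : q = p
              · exact Or.inl hqp
              · exact Or.inr (by omega)
          · intro i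
            rw [Nat.testBit_or, Bool.or_eq_true, hI.hU, Nat.one_shiftLeft, Nat.testBit_two_pow,
              decide_eq_true_eq]
            constructor
            · rintro (⟨h3, h4⟩ | h3)
              · exact ⟨by omega, h4⟩
              · subst h3
                exact ⟨by omega, hbp⟩
            · rintro ⟨h3, h4⟩
              by_cases hip : i = p
              · right; omega
              · left; exact ⟨by omega, h4⟩
          · intro i
            rw [hI.hB]
            constructor
            · rintro ⟨h3, h4, h5⟩; exact ⟨by omega, by omega, h5⟩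
            · rintro ⟨h3, h4, h5⟩
              have h6 : i / 4 ≠ p := by
                intro h6; rw [h6] at h4; omega
              have := hne (i / 4) (by omega)
              exact ⟨by omega, by omega, h5⟩
          · intro i
            rw [hL1, Bool.and_eq_true, hI.hL]
            constructor
            · rintro ⟨⟨h3, h4, h5⟩, h6⟩
              refine ⟨h3, ?_, ?_⟩
              · intro q hq
                by_cases hqp : q = p
                · subst hqp
                  exact ⟨fun _ => hbp, fun _ => h6⟩
                · exact h4 q (by omega)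
              · intro q hq hbq hne'
                have hqp : q ≠ p := by rintro rfl; omega
                have := hne q (by omega)
                exact h5 q (by omega) (by omega) hne'
            · rintro ⟨h3, h4, h5⟩
              exact ⟨⟨h3, fun q hq => h4 q (by omega), fun q hq hbq hne' =>
                h5 q (by omega) (by omega) hne'⟩, (h4 p (by omega)).2 hbp⟩
        · -- closing port
          have hlt' : b p < p := by omega
          have hbb : b (b p) = p := hbi p hpk
          have hmem : b p ∈ st := (hI.mem _).2 ⟨hlt', by omega⟩
          obtain ⟨q, st', rfl⟩ : ∃ q st', st = q :: st' := by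
            cases st with
            | nil => simp at hmem
            | cons q st' => exact ⟨q, st', rfl⟩
          have hpw := List.pairwise_cons.1 hI.pw
          have hq : q = b p := by
            by_contra hne
            have h3 : b p ∈ st' := by
              rcases List.mem_cons.1 hmem with h4 | h4
              · exact absurd h4.symm hne
              · exact h4
            have h4 := hpw.1 _ h3
            have h5 := (hI.mem q).1 List.mem_cons_self
            have h6 : b q ≠ p := by
              intro h6
              apply hne
              rw [← h6, hbi q (by omega)]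
            exact hnc (b p) q p (b q) (hbk q (by omega)) h4 h5.1 (by omega) hbb rfl
          subst hq
          have h1 : GG F S Us Xs W wd t (f + 1) p (b p :: st') Up Bp Lp T =
            cond (Nat.beq Lp 0) T.zero
            (GG F S Us Xs W wd t f (p + 1) (b p :: st') Up (Bp ||| (p <<< (4 * p)))
              (Lp ^^^ (Lp &&& getN Us p)) T.u && (GG F S Us Xs W wd t f (p + 1) (p :: b p :: st')
                (Up ||| (1 <<< p)) Bp (Lp &&& getN Us p) T.o &&
                (and (GG F S Us Xs W wd t f (p + 1) st' (Up ||| (1 <<< p))
                  (Bp ||| ((p <<< (4 * b p)) ||| (b p <<< (4 * p))))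
                  ((Lp &&& getN Us p) ^^^ ((Lp &&& getN Us p) &&& (getN Xs p ^^^ getN Xs (b p))))
                  T.s)
                  (GG F S Us Xs W wd t f (p + 1) st' (Up ||| (1 <<< p))
                  (Bp ||| ((p <<< (4 * b p)) ||| (b p <<< (4 * p))))
                  ((Lp &&& getN Us p) &&& (getN Xs p ^^^ getN Xs (b p))) T.d)))) := rfl
          rw [hb0, cond_false] at h1
          rw [h1, Bool.and_eq_true, Bool.and_eq_true, Bool.and_eq_true] at h
          have hs := h.2.2.1
          have hd := h.2.2.2
          have hne : ∀ q < p, b q = p → q = b p := by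
            intro q hq h3
            rw [← h3, hbi q (by omega)]
          -- the common part of the invariant
          have c1 : st'.Pairwise (· > ·) := hpw.2
          have c2 : ∀ q, q ∈ st' ↔ q < p + 1 ∧ p + 1 ≤ b q := by
            intro q
            constructor
            · intro h3
              have h4 := (hI.mem q).1 (List.mem_cons_of_mem _ h3)
              have h5 := hpw.1 _ h3
              have h6 : b q ≠ p := by
                intro h6
                have := hne q h4.1 h6
                omega
              omega
            · rintro ⟨h3, h4⟩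
              have h5 : q ≠ p := by rintro rfl; omega
              have h6 : q ∈ b p :: st' := (hI.mem q).2 (by omega)
              rcases List.mem_cons.1 h6 with h7 | h7
              · rw [h7, hbb] at h4; omega
              · exact h7
          have c3 : ∀ i, (Up ||| (1 <<< p)).testBit i = true ↔ i < p + 1 ∧ b i ≠ i := by
            intro i
            rw [Nat.testBit_or, Bool.or_eq_true, hI.hU, Nat.one_shiftLeft, Nat.testBit_two_pow,
              decide_eq_true_eq]
            constructor
            · rintro (⟨h3, h4⟩ | h3)
              · exact ⟨by omega, h4⟩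
              · subst h3
                exact ⟨by omega, hbp⟩
            · rintro ⟨h3, h4⟩
              by_cases hip : i = p
              · right; omega
              · left; exact ⟨by omega, h4⟩
          have hp16 : p < 16 := by
            have := hb16 (b p) (by omega)
            omega
          have c4 : ∀ i, (Bp ||| ((p <<< (4 * b p)) ||| (b p <<< (4 * p)))).testBit i = true ↔
              i / 4 < p + 1 ∧ b (i / 4) < p + 1 ∧ (b (i / 4)).testBit (i % 4) = true := by
            intro i
            rw [Nat.testBit_or, Nat.testBit_or, Bool.or_eq_true, Bool.or_eq_true, hI.hB,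
              rg_digit _ _ _ hp16, rg_digit _ _ _ (hb16 p hpk), Bool.and_eq_true,
              Bool.and_eq_true, decide_eq_true_eq, decide_eq_true_eq]
            constructor
            · rintro (⟨h3, h4, h5⟩ | ⟨h3, h4⟩ | ⟨h3, h4⟩)
              · exact ⟨by omega, by omega, h5⟩
              · rw [h3, hbb]; exact ⟨by omega, by omega, h4⟩
              · rw [h3]; exact ⟨by omega, by omega, h4⟩
            · rintro ⟨h3, h4, h5⟩
              by_cases h6 : i / 4 = p
              · right; right
                rw [h6] at h5
                exact ⟨h6, h5⟩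
              · by_cases h7 : i / 4 = b p
                · right; left
                  rw [h7, hbb] at h5
                  exact ⟨h7, h5⟩
                · left
                  have h8 : b (i / 4) ≠ p := fun h9 => h7 (hne _ (by omega) h9)
                  exact ⟨by omega, by omega, h5⟩
          -- the condition on the items
          have c5 : ∀ i, (i < N ∧ (∀ q < p + 1, (getN Us q).testBit i = true ↔ b q ≠ q) ∧
              (∀ q < p + 1, b q < p + 1 → b q ≠ q →
                ((getN Xs q).testBit i = (getN Xs (b q)).testBit i ↔ ε q = true))) ↔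
              (Lp.testBit i = true ∧ (getN Us p).testBit i = true ∧
                ((getN Xs p).testBit i = (getN Xs (b p)).testBit i ↔ ε p = true)) := by
            intro i
            rw [hI.hL]
            constructor
            · rintro ⟨h3, h4, h5⟩
              exact ⟨⟨h3, fun q hq => h4 q (by omega), fun q hq hbq hne' =>
                h5 q (by omega) (by omega) hne'⟩, (h4 p (by omega)).2 hbp,
                h5 p (by omega) (by omega) hbp⟩
            · rintro ⟨⟨h3, h4, h5⟩, h6, h7⟩
              refine ⟨h3, ?_, ?_⟩
              · intro q hq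
                by_cases hqp : q = p
                · subst hqp
                  exact ⟨fun _ => hbp, fun _ => h6⟩
                · exact h4 q (by omega)
              · intro q hq hbq hne'
                by_cases hqp : q = p
                · subst hqp; exact h7
                · by_cases hqb : b q = p
                  · have h8 := hne q (by omega) hqb
                    rw [hqb, h8, hε p hpk, ← h7]
                    exact eq_comm
                  · exact h5 q (by omega) (by omega) hne'
          by_cases he : ε p = true
          · have hlook : look b ε (f + 1) p T = look b ε f (p + 1) T.s := by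
              rw [look, if_neg hbp, if_neg hlt, if_pos he]
            rw [hlook]
            refine ih (p + 1) st' _ _ _ T.s (by omega) hs ⟨c1, c2, c3, c4, ?_⟩
            intro i
            rw [c5, Nat.testBit_xor, Nat.testBit_and, Nat.testBit_and, Nat.testBit_and,
              Nat.testBit_xor]
            simp only [he, iff_true]
            cases Lp.testBit i <;> cases (getN Us p).testBit i <;>
              cases (getN Xs p).testBit i <;> cases (getN Xs (b p)).testBit i <;> decide
          · have hlook : look b ε (f + 1) p T = look b ε f (p + 1) T.d := by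
              rw [look, if_neg hbp, if_neg hlt, if_neg he]
            rw [hlook]
            refine ih (p + 1) st' _ _ _ T.d (by omega) hd ⟨c1, c2, c3, c4, ?_⟩
            intro i
            rw [c5, Nat.testBit_and, Nat.testBit_and, Nat.testBit_xor]
            simp only [he]
            cases Lp.testBit i <;> cases (getN Us p).testBit i <;>
              cases (getN Xs p).testBit i <;> cases (getN Xs (b p)).testBit i <;> decide

/-- FS-7 -/
theorem runG_sound (F : Code) (hF : CodeOK F) (S : Tri') (Ct : Cert) (T : TT)
    (h : runG F S Ct T = true) (b : Fin F.k → Fin F.k) (hb : NC b) (ε : Fin F.k → Bool)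
    (hε : ∀ j, ε (b j) = ε j) (B U : ℕ) (hB : CodeB b B) (hB' : B < 2 ^ (4 * F.k))
    (hU : CodeU b U) :
    ∃ L, ItemSet Ct b ε L ∧
      (∀ w, look (extB b) (extE ε) F.k 0 T = some w → fold Ct.wd Ct.t (L &&& Ct.W) = w) ∧
      (fold Ct.wd Ct.t (L &&& Ct.W) = 0 ∨ blk F S U B = true) := by
  have hbk : ∀ q < F.k, extB b q < F.k := by
    intro q hq
    rw [extB, dif_pos hq]
    exact (b ⟨q, hq⟩).2
  have he : ∀ (q : ℕ) (hq : q < F.k), extB b q = b ⟨q, hq⟩ := by
    intro q hq
    rw [extB, dif_pos hq]
  have hbi : ∀ q < F.k, extB b (extB b q) = q := by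
    intro q hq
    have h1 : (⟨extB b q, hbk q hq⟩ : Fin F.k) = b ⟨q, hq⟩ := Fin.ext (he q hq)
    rw [he _ (hbk q hq), h1, hb.inv]
  have hne : ∀ (q : ℕ) (hq : q < F.k), extB b q ≠ q ↔ b ⟨q, hq⟩ ≠ ⟨q, hq⟩ := by
    intro q hq
    rw [he q hq, ne_eq, ne_eq, Fin.ext_iff]
  have hee : ∀ (q : ℕ) (hq : q < F.k), extE ε q = ε ⟨q, hq⟩ := by
    intro q hq
    rw [extE, dif_pos hq]
  obtain ⟨L, h1, h2, h3⟩ := rg_main F S (zipN (usOf Ct.B) Ct.K1 Ct.K2)
    (zipN (xsOf Ct.B) Ct.K1 Ct.K2) Ct.W Ct.wd Ct.t (3 * Ct.B) (extB b) (extE ε) hbi hbk
    (by
      intro q hq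
      rw [he q hq, ← hB ⟨q, hq⟩]
      exact rg_d4_lt _ _)
    (by
      intro i j l m hm hij hjl hlm hi hj
      have e1 := he i (by omega)
      have e2 := he j (by omega)
      refine hb.nc ⟨i, by omega⟩ ⟨j, by omega⟩ ⟨l, by omega⟩ ⟨m, hm⟩ hij hjl hlm ?_ ?_
      · exact Fin.ext (by rw [← e1, hi])
      · exact Fin.ext (by rw [← e2, hj]))
    (by
      intro q hq
      have h1 : (⟨extB b q, hbk q hq⟩ : Fin F.k) = b ⟨q, hq⟩ := Fin.ext (he q hq)
      rw [hee _ (hbk q hq), hee q hq, h1, hε])
    U B
    (by
      intro i
      constructor
      · intro h1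
        have h2 : i < F.k := by
          by_contra h2
          have h3 : U.testBit i = false := by
            apply Nat.testBit_eq_false_of_lt
            exact lt_of_lt_of_le hU.1 (Nat.pow_le_pow_right (by norm_num) (by omega))
          rw [h3] at h1
          exact absurd h1 (by simp)
        refine ⟨h2, (hne i h2).2 ?_⟩
        rw [← hU.2 ⟨i, h2⟩, rg_tb]
        exact h1
      · rintro ⟨h1, h2⟩
        have h3 := (hU.2 ⟨i, h1⟩).2 ((hne i h1).1 h2)
        rw [rg_tb] at h3
        exact h3)
    (by
      intro i
      constructor
      · intro h1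
        have h2 : i / 4 < F.k := by
          by_contra h2
          have h3 : B.testBit i = false := by
            apply Nat.testBit_eq_false_of_lt
            exact lt_of_lt_of_le hB' (Nat.pow_le_pow_right (by norm_num) (by omega))
          rw [h3] at h1
          exact absurd h1 (by simp)
        refine ⟨h2, ?_⟩
        rw [he _ h2, ← hB ⟨i / 4, h2⟩, rg_d4 _ _ _ (by omega)]
        have h4 : 4 * (i / 4) + i % 4 = i := by omega
        change B.testBit (4 * (i / 4) + i % 4) = true
        rw [h4]
        exact h1
      · rintro ⟨h1, h2⟩
        rw [he _ h1, ← hB ⟨i / 4, h1⟩, rg_d4 _ _ _ (by omega)] at h2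
        have h4 : 4 * (i / 4) + i % 4 = i := by omega
        change B.testBit (4 * (i / 4) + i % 4) = true at h2
        rw [h4] at h2
        exact h2)
    F.k 0 [] 0 0 (Nat.pred (Nat.shiftLeft 1 (Nat.mul 3 Ct.B))) T (by omega) h
    ⟨List.Pairwise.nil, by intro q; simp, by intro i; simp, by intro i; simp, by
      intro i
      have h1 : Nat.pred (Nat.shiftLeft 1 (Nat.mul 3 Ct.B)) = 2 ^ (3 * Ct.B) - 1 := by
        have h2 : Nat.shiftLeft 1 (Nat.mul 3 Ct.B) = 1 <<< (3 * Ct.B) := rfl
        rw [h2, Nat.one_shiftLeft]
        rfl
      rw [h1, Nat.testBit_two_pow_sub_one]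
      simp⟩
  refine ⟨L, ?_, h2, h3⟩
  intro i
  rw [h1]
  constructor
  · rintro ⟨h4, h5, h6⟩
    refine ⟨h4, ?_⟩
    rintro ⟨q, hq⟩
    refine ⟨?_, ?_⟩
    · rw [← hne q hq]; exact h5 q hq
    · intro h7
      have h8 := h6 q hq ((hne q hq).2 h7)
      rw [he q hq, hee q hq] at h8
      exact h8
  · rintro ⟨h4, h5⟩
    refine ⟨h4, ?_, ?_⟩
    · intro q hq
      rw [hne q hq]
      exact (h5 ⟨q, hq⟩).1
    · intro q hq h7
      have h8 := (h5 ⟨q, hq⟩).2 ((hne q hq).1 h7)
      rw [he q hq, hee q hq]
      exact h8

end Pool.Agent.Helper17.CT
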